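import Mathlib

/-! Scalar and finite-dimensional ODE tools (MP_73ccd0_lc, exact 1/2). -/

namespace Pool.Agent.RX.RCRSHalf

open Set

/-- A family (indexed by time) of real functions of `y`, uniformly bounded, uniformly Lipschitz and
continuous in time. -/
structure UBL {E : Type*} [NormedAddCommGroup E] (f : ℝ → E → ℝ) : Prop where
  ex : ∃ K C : ℝ, 0 ≤ K ∧ 0 ≤ C ∧ (∀ t y z, |f t y - f t z| ≤ K * ‖y - z‖) ∧ ∀ t y, |f t y| ≤ C
  cont : ∀ y, Continuous fun t => f t y

namespace UBL

variable {E : Type*} [NormedAddCommGroup E] {f g : ℝ → E → ℝ}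

theorem add (hf : UBL f) (hg : UBL g) : UBL fun t y => f t y + g t y := by
  obtain ⟨K, C, hK, hC, hL, hb⟩ := hf.ex
  obtain ⟨K', C', hK', hC', hL', hb'⟩ := hg.ex
  refine ⟨⟨K + K', C + C', by positivity, by positivity, fun t y z => ?_, fun t y => ?_⟩,
    fun y => (hf.cont y).add (hg.cont y)⟩
  · have h1 := hL t y z
    have h2 := hL' t y z
    have h3 : |f t y + g t y - (f t z + g t z)| ≤ |f t y - f t z| + |g t y - g t z| := by
      have : f t y + g t y - (f t z + g t z) = (f t y - f t z) + (g t y - g t z) := by ring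
      rw [this]; exact abs_add_le _ _
    linarith [add_mul K K' ‖y - z‖]
  · exact (abs_add_le _ _).trans (add_le_add (hb t y) (hb' t y))

theorem mul (hf : UBL f) (hg : UBL g) : UBL fun t y => f t y * g t y := by
  obtain ⟨K, C, hK, hC, hL, hb⟩ := hf.ex
  obtain ⟨K', C', hK', hC', hL', hb'⟩ := hg.ex
  refine ⟨⟨C * K' + K * C', C * C', by positivity, by positivity, fun t y z => ?_, fun t y => ?_⟩,
    fun y => (hf.cont y).mul (hg.cont y)⟩
  · have h1 := hL t y z
    have h2 := hL' t y z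
    have h4 := hb t y
    have h5 := hb' t z
    have e : f t y * g t y - f t z * g t z = f t y * (g t y - g t z) + (f t y - f t z) * g t z := by
      ring
    have hn : 0 ≤ ‖y - z‖ := norm_nonneg _
    calc |f t y * g t y - f t z * g t z|
        ≤ |f t y| * |g t y - g t z| + |f t y - f t z| * |g t z| := by
          rw [e, ← abs_mul, ← abs_mul]; exact abs_add_le _ _
      _ ≤ C * (K' * ‖y - z‖) + (K * ‖y - z‖) * C' := by
          apply add_le_add
          · exact mul_le_mul h4 h2 (abs_nonneg _) hC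
          · exact mul_le_mul h1 h5 (abs_nonneg _) (by positivity)
      _ = (C * K' + K * C') * ‖y - z‖ := by ring
  · rw [abs_mul]; exact mul_le_mul (hb t y) (hb' t y) (abs_nonneg _) hC

theorem const (c : ℝ) : UBL fun (_ : ℝ) (_ : E) => c :=
  ⟨⟨0, |c|, le_rfl, abs_nonneg _, fun t y z => by simp, fun t y => le_rfl⟩,
    fun _ => continuous_const⟩

theorem ofTime {c : ℝ → ℝ} (hc : Continuous c) {C : ℝ} (hb : ∀ t, |c t| ≤ C) :
    UBL fun (t : ℝ) (_ : E) => c t :=
  ⟨⟨0, C, le_rfl, (abs_nonneg _).trans (hb 0), fun t y z => by simp, fun t y => hb t⟩,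
    fun _ => hc⟩

theorem neg (hf : UBL f) : UBL fun t y => -f t y := by
  have := (const (E := E) (-1)).mul hf
  simpa using this

theorem sub (hf : UBL f) (hg : UBL g) : UBL fun t y => f t y - g t y := by
  simpa [sub_eq_add_neg] using hf.add hg.neg

theorem sum {ι : Type*} (s : Finset ι) {F : ι → ℝ → E → ℝ} (hF : ∀ i ∈ s, UBL (F i)) :
    UBL fun t y => ∑ i ∈ s, F i t y := by
  classical
  induction s using Finset.induction_on with
  | empty => simpa using (const (E := E) 0)
  | insert a s ha ih =>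
    have h1 := hF a (Finset.mem_insert_self _ _)
    have h2 := ih fun i hi => hF i (Finset.mem_insert_of_mem hi)
    simpa [Finset.sum_insert ha] using h1.add h2

theorem min (hf : UBL f) (hg : UBL g) : UBL fun t y => Min.min (f t y) (g t y) := by
  obtain ⟨K, C, hK, hC, hL, hb⟩ := hf.ex
  obtain ⟨K', C', hK', hC', hL', hb'⟩ := hg.ex
  refine ⟨⟨K + K', C + C', by positivity, by positivity, fun t y z => ?_, fun t y => ?_⟩,
    fun y => (hf.cont y).min (hg.cont y)⟩
  · have h1 := hL t y z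
    have h2 := hL' t y z
    have hn : 0 ≤ ‖y - z‖ := norm_nonneg _
    have h3 := abs_min_sub_min_le_max (f t y) (g t y) (f t z) (g t z)
    have h4 : K * ‖y - z‖ ≤ (K + K') * ‖y - z‖ := by nlinarith
    have h5 : K' * ‖y - z‖ ≤ (K + K') * ‖y - z‖ := by nlinarith
    exact h3.trans (max_le (h1.trans h4) (h2.trans h5))
  · have h1 := hb t y
    have h2 := hb' t y
    rw [abs_le] at *
    constructor
    · exact le_min (by linarith [h1.1]) (by linarith [h2.1])
    · exact (min_le_left _ _).trans (by linarith [h1.2])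

end UBL

theorem clamp_lip (a b : ℝ) : |max 0 (Min.min 1 a) - max 0 (Min.min 1 b)| ≤ |a - b| := by
  refine (abs_max_sub_max_le_max _ _ _ _).trans ?_
  refine max_le (by simp) ((abs_min_sub_min_le_max _ _ _ _).trans ?_)
  exact max_le (by simp) le_rfl

theorem UBL.coord {ι : Type*} [Fintype ι] (i : ι) :
    UBL fun (_ : ℝ) (y : ι → ℝ) => max 0 (Min.min 1 (y i)) := by
  refine ⟨⟨1, 1, by norm_num, by norm_num, fun t y z => ?_, fun t y => ?_⟩,
    fun _ => continuous_const⟩
  · refine (clamp_lip _ _).trans ?_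
    rw [one_mul]
    exact norm_le_pi_norm (y - z) i
  · rw [abs_le]
    constructor
    · exact (by norm_num : (-1 : ℝ) ≤ 0).trans (le_max_left _ _)
    · exact max_le (by norm_num) (min_le_left _ _)

/-- reciprocal of a clamped function -/
theorem UBL.inv {E : Type*} [NormedAddCommGroup E] {f : ℝ → E → ℝ} (hf : UBL f) {δ : ℝ}
    (hδ : 0 < δ) : UBL fun t y => (max (f t y) δ)⁻¹ := by
  obtain ⟨K, C, hK, hC, hL, hb⟩ := hf.ex
  have hpos : ∀ t y, δ ≤ max (f t y) δ := fun t y => le_max_right _ _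
  refine ⟨⟨K / δ ^ 2, δ⁻¹, by positivity, by positivity, fun t y z => ?_, fun t y => ?_⟩,
    fun y => ?_⟩
  · have h1 := hL t y z
    have h2 : |max (f t y) δ - max (f t z) δ| ≤ K * ‖y - z‖ := by
      refine (abs_max_sub_max_le_max _ _ _ _).trans (max_le h1 ?_)
      simp only [sub_self, abs_zero]; positivity
    have p1 := hpos t y
    have p2 := hpos t z
    have q1 : 0 < max (f t y) δ := hδ.trans_le p1
    have q2 : 0 < max (f t z) δ := hδ.trans_le p2
    have e : (max (f t y) δ)⁻¹ - (max (f t z) δ)⁻¹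
        = -(max (f t y) δ - max (f t z) δ) / (max (f t y) δ * max (f t z) δ) := by
      field_simp; ring
    rw [e, abs_div, abs_neg, abs_of_pos (mul_pos q1 q2)]
    have h3 : δ ^ 2 ≤ max (f t y) δ * max (f t z) δ := by nlinarith
    have h4 : 0 < δ ^ 2 := by positivity
    rw [div_mul_eq_mul_div]
    exact div_le_div₀ (by positivity) h2 h4 h3
  · rw [abs_of_pos (inv_pos.2 (hδ.trans_le (hpos t y)))]
    exact inv_anti₀ hδ (hpos t y)
  · exact ((hf.cont y).max continuous_const).inv₀ fun t => (hδ.trans_le (hpos t y)).ne'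

/-- Backward positivity: if `U` decreases wherever it is negative and `U s ≥ 0` then `U ≥ 0`. -/
theorem nonneg_of_backward {U U' : ℝ → ℝ} {a s : ℝ} (hd : ∀ r ∈ Icc a s, HasDerivAt U (U' r) r)
    (hs : 0 ≤ U s) (hneg : ∀ r ∈ Icc a s, U r < 0 → U' r ≤ 0) : ∀ r ∈ Icc a s, 0 ≤ U r := by
  intro r hr
  by_contra hlt
  push Not at hlt
  have hcont : ContinuousOn U (Icc r s) := fun t ht =>
    (hd t ⟨hr.1.trans ht.1, ht.2⟩).continuousAt.continuousWithinAt
  -- first time where `U ≥ 0`
  let S : Set ℝ := {t | t ∈ Icc r s ∧ 0 ≤ U t}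
  have hSne : S.Nonempty := ⟨s, ⟨hr.2, le_rfl⟩, hs⟩
  have hSclosed : IsClosed S := by
    have : S = Icc r s ∩ U ⁻¹' Ici 0 := by ext t; simp [S]
    rw [this]
    exact hcont.preimage_isClosed_of_isClosed isClosed_Icc isClosed_Ici
  have hSbdd : BddBelow S := ⟨r, fun t ht => ht.1.1⟩
  set t1 := sInf S with ht1
  have ht1S : t1 ∈ S := hSclosed.csInf_mem hSne hSbdd
  have hanti : AntitoneOn U (Icc r t1) := by
    apply antitoneOn_of_deriv_nonpos (convex_Icc _ _)
    · exact hcont.mono (Icc_subset_Icc_right ht1S.1.2)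
    · intro t ht
      rw [interior_Icc] at ht
      exact ((hd t ⟨hr.1.trans ht.1.le, ht.2.le.trans ht1S.1.2⟩).differentiableAt).differentiableWithinAt
    · intro t ht
      rw [interior_Icc] at ht
      have hmem : t ∈ Icc a s := ⟨hr.1.trans ht.1.le, ht.2.le.trans ht1S.1.2⟩
      rw [(hd t hmem).deriv]
      apply hneg t hmem
      by_contra hge
      push Not at hge
      have : t ∈ S := ⟨⟨ht.1.le, ht.2.le.trans ht1S.1.2⟩, hge⟩
      exact absurd (csInf_le hSbdd this) (not_le.2 ht.2)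
  have := hanti (left_mem_Icc.2 ht1S.1.1) (right_mem_Icc.2 ht1S.1.1) ht1S.1.1
  linarith [ht1S.2]

/-- Forward positivity. -/
theorem nonneg_of_forward {U U' : ℝ → ℝ} {a s : ℝ} (hd : ∀ r ∈ Icc a s, HasDerivAt U (U' r) r)
    (ha : 0 ≤ U a) (hneg : ∀ r ∈ Icc a s, U r < 0 → 0 ≤ U' r) : ∀ r ∈ Icc a s, 0 ≤ U r := by
  intro r hr
  have h := nonneg_of_backward (U := fun t => U (-t)) (U' := fun t => -U' (-t)) (a := -s) (s := -a)
    (fun t ht => by
      have h1 := hd (-t) ⟨by linarith [ht.2], by linarith [ht.1]⟩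
      have h2 := h1.scomp t (hasDerivAt_neg t)
      have h3 : HasDerivAt (U ∘ Neg.neg) (-U' (-t)) t := by simpa using h2
      exact h3)
    (by simpa using ha)
    (fun t ht hlt => by
      have := hneg (-t) ⟨by linarith [ht.2], by linarith [ht.1]⟩ hlt
      linarith)
    (-r) ⟨by linarith [hr.2], by linarith [hr.1]⟩
  simpa using h

end Pool.Agent.RX.RCRSHalf
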