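import Pool.Agent.RX.RCRSHalf.Walk

/-! Explicit influence bounds (MP_73ccd0_lc, exact 1/2). -/

namespace Pool.Agent.RX.RCRSHalf

open Set Finset Matrix

set_option linter.unusedSectionVars false

/-- `β(m) = ∫ α` -/
noncomputable def b2 (c m : ℝ) : ℝ := m ^ 2 / 2 + c * m ^ 5 / 5
/-- `∫ β` -/
noncomputable def g3 (c m : ℝ) : ℝ := m ^ 3 / 6 + c * m ^ 6 / 30
/-- `∫ b4` -/
noncomputable def g5 (c κ m : ℝ) : ℝ := κ * (m ^ 5 / 120 + c * m ^ 8 / 1680)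

section nonneg
variable {c κ m : ℝ}
end nonneg

variable {V : Type*} [Fintype V] [DecidableEq V]

/-- the vector `Φ_n` -/
noncomputable def Ph (θ : ℝ) (A : Matrix V V ℝ) (F : V → ℝ) (n : ℕ) : V → ℝ := Sn θ A n *ᵥ F

/-- exponent of the upper influence bound -/
noncomputable def Yf (c κ θ : ℝ) (A : Matrix V V ℝ) (F : V → ℝ) (n : ℕ) (m : ℝ) (a : V) : ℝ :=
  g3 c m * (A *ᵥ (A *ᵥ F)) a + g5 c κ m * (A *ᵥ (A *ᵥ (A *ᵥ (A *ᵥ Ph θ A F n)))) a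

section vec

variable {c κ θ σ m1 : ℝ} {A : Matrix V V ℝ} {F : V → ℝ} {n : ℕ} {m : ℝ}

variable (hrow : ∀ a, (A *ᵥ fun _ => 1) a ≤ 1) (hF : ∀ a, 0 ≤ F a) (hσ : ∀ a, (A *ᵥ F) a ≤ σ) (hm : m ∈ Icc 0 m1)

end vec

section influence

variable {c κ θ σ m1 : ℝ} {F : V → ℝ} {x : V → V → ℝ}
  {h : ℝ → V → V → ℝ} {k : ℝ → V → ℝ} {s : ℝ} {R : Finset V → ℝ → ℝ} {M μ : ℝ → ℝ}
  {KK : V → ℝ → ℝ}

end influence

end Pool.Agent.RX.RCRSHalf
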