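import Pool.Agent.RX.RCRSHalf.Dual
import Pool.Agent.RX.RCRSHalf.Ode

/-! Lower bound for the probability that one end point is free when the other end point is
removed (MP_73ccd0_lc, exact 1/2). -/

namespace Pool.Agent.RX.RCRSHalf

open Set Finset Matrix

set_option linter.unusedSectionVars false

variable {V : Type*} [Fintype V] [DecidableEq V]

section law

variable {h : ℝ → V → V → ℝ} {U : Finset V} {T : ℝ} {μ : ℝ → Finset V → ℝ}

theorem IsLaw.pr_nonneg (hμ : IsLaw h U T μ) (W : Finset V) {t : ℝ} (ht : t ∈ Icc 0 T) :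
    0 ≤ pr (μ t) W :=
  Finset.sum_nonneg fun F _ => mul_nonneg (hμ.nonneg F t ht) (by split_ifs <;> norm_num)

theorem IsLaw.pr_le_one (hμ : IsLaw h U T μ) (W : Finset V) {t : ℝ} (ht : t ∈ Icc 0 T) :
    pr (μ t) W ≤ 1 := by
  rw [← hμ.total t ht]
  refine Finset.sum_le_sum fun F _ => ?_
  have := hμ.nonneg F t ht
  split_ifs <;> simp [this]

theorem IsLaw.pr_start (hμ : IsLaw h U T μ) (W : Finset V) :
    pr (μ 0) W = if W ⊆ U then 1 else 0 := by
  unfold pr
  rw [hμ.start, Finset.sum_eq_single U]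
  · simp [pt]
  · intro F _ hF
    simp [pt, hF]
  · simp

theorem IsLaw.pr_zero (hμ : IsLaw h U T μ) (h0 : ∀ t a b, 0 ≤ h t a b) {W : Finset V}
    (hW : ¬ W ⊆ U) {t : ℝ} (ht : t ∈ Icc 0 T) : pr (μ t) W = 0 := by
  have h1 := nonneg_of_forward (U := fun t => - pr (μ t) W) (a := 0) (s := T)
    (fun r hr => (hμ.deriv_pr W hr).neg) (by rw [hμ.pr_start, if_neg hW]; simp)
    (fun r hr _ => by
      rw [neg_neg]
      refine mul_nonneg (by norm_num) (Finset.sum_nonneg fun a _ => Finset.sum_nonneg fun b _ => ?_)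
      split_ifs
      · exact mul_nonneg (h0 _ _ _) (hμ.pr_nonneg _ hr)
      · exact le_rfl) t ht
  have h2 := hμ.pr_nonneg W ht
  linarith

/-- flux identity for a single vertex -/
theorem IsLaw.deriv_single (hμ : IsLaw h U T μ) (hs : ∀ t a b, h t a b = h t b a)
    (hd : ∀ t a, h t a a = 0) (u : V) {t : ℝ} (ht : t ∈ Icc 0 T) :
    HasDerivAt (fun t => pr (μ t) {u}) (-∑ z, h t u z * pr (μ t) {u, z}) t := by
  refine (hμ.deriv_pr {u} ht).congr_deriv ?_
  congr 1
  have key : ∀ a b, (if a ∈ ({u} : Finset V) ∨ b ∈ ({u} : Finset V) then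
        h t a b * pr (μ t) (insert a (insert b {u})) else 0)
      = (if a = u then h t u b * pr (μ t) {u, b} else 0)
        + (if b = u then h t u a * pr (μ t) {u, a} else 0) := by
    intro a b
    simp only [Finset.mem_singleton]
    by_cases ha : a = u
    · subst ha
      have e : insert a (insert b {a}) = ({a, b} : Finset V) := by
        ext c; simp only [Finset.mem_insert, Finset.mem_singleton]; tauto
      by_cases hb : b = a
      · subst hb; simp [hd]
      · simp [hb, e]
    · by_cases hb : b = u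
      · subst hb
        have e : insert a (insert b {b}) = ({b, a} : Finset V) := by
          ext c; simp only [Finset.mem_insert, Finset.mem_singleton]; tauto
        rw [if_pos (Or.inr rfl), if_neg ha, if_pos rfl, e, hs t a b, zero_add]
      · simp [ha, hb]
  simp_rw [key, Finset.sum_add_distrib]
  have e1 : ∑ a : V, ∑ b : V, (if a = u then h t u b * pr (μ t) {u, b} else 0)
      = ∑ z, h t u z * pr (μ t) {u, z} := by
    rw [Finset.sum_comm]
    simp
  have e2 : ∑ a : V, ∑ b : V, (if b = u then h t u a * pr (μ t) {u, a} else 0)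
      = ∑ z, h t u z * pr (μ t) {u, z} := by
    simp
  rw [e1, e2]
  ring

end law

variable {x : V → V → ℝ} {h : ℝ → V → V → ℝ} {Hc : V → V → ℝ → ℝ}

end Pool.Agent.RX.RCRSHalf
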