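import Pool.Agent.RX.RCRSHalf.Pairs

/-! The scheme selects every edge with probability exactly one half of its weight in a
triangle-free graph (MP_73ccd0_lc). -/

set_option linter.unusedSectionVars false

namespace Pool.Agent.RX.RCRSHalf

open MeasureTheory Set Pool.Agent.RX.RCRS

section Final2

variable {V : Type} [Fintype V] [DecidableEq V] {G : SimpleGraph V} [Fintype G.edgeSet] [DecidableEq G.edgeSet] {x : G.edgeSet → ℝ} {h : ℝ → V → V → ℝ} {Hc : V → V → ℝ → ℝ}

theorem ends_nonempty (i : G.edgeSet ⊕ V) : (ends G i).Nonempty := by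
  rcases i with e | v
  · exact ⟨fe e, by rw [ends_rep]; simp⟩
  · exact ⟨v, by rw [ends_inr]⟩

end Final2

end Pool.Agent.RX.RCRSHalf
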