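import Mathlib

/-! Uniqueness for the hierarchy of free probabilities, and the hierarchy for the law of the
matching process after a change of time (MP_73ccd0_lc, exact 1/2). -/

set_option linter.unusedSectionVars false

namespace Pool.Agent.RX.RCRSHalf

open MeasureTheory Set

section Uniq

variable {ι V : Type*} [Fintype ι] [DecidableEq ι] [Fintype V] [DecidableEq V] (en : ι → Finset V)

/-- the integral hierarchy -/
def Hier (h : ι → ℝ → ℝ) (X : Finset V → ℝ → ℝ) : Prop :=
  ∀ W, ∀ s ∈ Icc (0:ℝ) 1, X W s = 1 - ∑ f ∈ Finset.univ.filter (fun f => ¬ Disjoint (en f) W),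
    ∫ t in Ico 0 s, h f t * X (W ∪ en f) t

theorem hier_unique {h : ι → ℝ → ℝ} {C : ℝ} (hC0 : 0 ≤ C) (hC : ∀ f t, |h f t| ≤ C)
    {X Y : Finset V → ℝ → ℝ} (hX : Hier en h X) (hY : Hier en h Y)
    (hXi : ∀ f W, ∀ s ∈ Icc (0:ℝ) 1, IntegrableOn (fun t => h f t * X W t) (Ico 0 s))
    (hYi : ∀ f W, ∀ s ∈ Icc (0:ℝ) 1, IntegrableOn (fun t => h f t * Y W t) (Ico 0 s))
    (hb : ∀ W, ∀ s ∈ Icc (0:ℝ) 1, |X W s - Y W s| ≤ 2) :
    ∀ W, ∀ s ∈ Icc (0:ℝ) 1, X W s = Y W s := by
  set K : ℝ := Fintype.card ι * C with hK
  have hK0 : 0 ≤ K := by positivity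
  have key : ∀ n : ℕ, ∀ W, ∀ s ∈ Icc (0:ℝ) 1, |X W s - Y W s| ≤ 2 * (K * s) ^ n / n.factorial := by
    intro n
    induction n with
    | zero => intro W s hs; simpa using hb W s hs
    | succ n ih =>
      intro W s hs
      have e1 : X W s - Y W s = -∑ f ∈ Finset.univ.filter (fun f => ¬ Disjoint (en f) W),
          ∫ t in Ico 0 s, h f t * (X (W ∪ en f) t - Y (W ∪ en f) t) := by
        rw [hX W s hs, hY W s hs]
        rw [sub_sub_sub_cancel_left, ← Finset.sum_sub_distrib, ← Finset.sum_neg_distrib]
        refine Finset.sum_congr rfl fun f _ => ?_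
        rw [← integral_sub (hYi f _ s hs) (hXi f _ s hs), ← integral_neg]
        refine integral_congr_ae (Filter.Eventually.of_forall fun t => ?_)
        simp only []
        ring
      rw [e1, abs_neg]
      refine (Finset.abs_sum_le_sum_abs _ _).trans ?_
      have hterm : ∀ f ∈ Finset.univ.filter (fun f => ¬ Disjoint (en f) W),
          |∫ t in Ico 0 s, h f t * (X (W ∪ en f) t - Y (W ∪ en f) t)|
          ≤ C * (2 * K ^ n / n.factorial) * (s ^ (n + 1) / (n + 1)) := by
        intro f _
        have hint : ∫ t in Ico 0 s, C * (2 * K ^ n / n.factorial) * t ^ n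
            = C * (2 * K ^ n / n.factorial) * (s ^ (n + 1) / (n + 1)) := by
          rw [integral_const_mul, integral_Ico_eq_integral_Ioc,
            ← intervalIntegral.integral_of_le hs.1, integral_pow]
          simp
        rw [← hint, ← Real.norm_eq_abs]
        refine norm_integral_le_of_norm_le ?_ ?_
        · have : IntegrableOn (fun t : ℝ => C * (2 * K ^ n / n.factorial) * t ^ n) (Icc 0 s) :=
            (by fun_prop : Continuous fun t : ℝ => C * (2 * K ^ n / n.factorial) * t ^ n)
              |>.continuousOn.integrableOn_Icc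
          exact this.mono_set Ico_subset_Icc_self
        · filter_upwards [ae_restrict_mem measurableSet_Ico] with t ht
          have ht1 : t ∈ Icc (0:ℝ) 1 := ⟨ht.1, ht.2.le.trans hs.2⟩
          rw [Real.norm_eq_abs, abs_mul]
          have h1 := ih (W ∪ en f) t ht1
          calc |h f t| * |X (W ∪ en f) t - Y (W ∪ en f) t|
              ≤ C * (2 * (K * t) ^ n / n.factorial) :=
                mul_le_mul (hC f t) h1 (abs_nonneg _) hC0
            _ = _ := by rw [mul_pow]; ring
      refine (Finset.sum_le_sum hterm).trans ?_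
      rw [Finset.sum_const, nsmul_eq_mul]
      have hcard : ((Finset.univ.filter (fun f => ¬ Disjoint (en f) W)).card : ℝ)
          ≤ Fintype.card ι := by
        exact_mod_cast Finset.card_le_univ _
      have hnn : 0 ≤ C * (2 * K ^ n / n.factorial) * (s ^ (n + 1) / (n + 1)) := by
        have := hs.1
        positivity
      refine (mul_le_mul_of_nonneg_right hcard hnn).trans (le_of_eq ?_)
      rw [Nat.factorial_succ]
      push_cast
      rw [hK]
      have h1 : (n.factorial : ℝ) ≠ 0 := by positivity
      have h2 : (n : ℝ) + 1 ≠ 0 := by positivity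
      field_simp
      ring
  intro W s hs
  have hlim : Filter.Tendsto (fun n : ℕ => 2 * (K * s) ^ n / n.factorial) Filter.atTop (nhds 0) := by
    have := (FloorSemiring.tendsto_pow_div_factorial_atTop (K * s)).const_mul 2
    simpa [mul_div_assoc] using this
  have h0 : |X W s - Y W s| ≤ 0 := ge_of_tendsto' hlim fun n => key n W s hs
  have := abs_nonpos_iff.1 h0
  linarith

end Uniq

section Law

variable {V : Type*} [Fintype V] [DecidableEq V]

end Law

end Pool.Agent.RX.RCRSHalf
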