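import Mathlib

/-! Certificate data and the lower bound for the probability that both end points of an edge are
free (MP_73ccd0_lc, exact 1/2). -/

namespace Pool.Agent.RX.RCRSHalf

open Set Finset Matrix

set_option linter.unusedSectionVars false

/-- further data of the profile -/
structure Cert where
  A : ℝ → ℝ
  E : ℝ → ℝ
  A' : ℝ → ℝ
  E' : ℝ → ℝ
  IG : ℝ → ℝ → ℝ
  IA : ℝ → ℝ → ℝ
  IE : ℝ → ℝ → ℝ
  IE' : ℝ → ℝ → ℝ
  J : ℝ → ℝ → ℝ
  J' : ℝ → ℝ → ℝ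
  dn : ℝ → ℝ → ℝ
  n0 : ℝ
  wm : ℝ
  dm : ℝ
  δ : ℝ

/-- coefficient of the local quadratic degree -/
noncomputable def Dp (c : Cert) (x t : ℝ) : ℝ := c.IA x t - c.IE x t + c.dn x t

variable {V : Type*} [Fintype V] [DecidableEq V]
variable {c : Cert} {x : V → V → ℝ} {h : ℝ → V → V → ℝ} {Hc : V → V → ℝ → ℝ}

end Pool.Agent.RX.RCRSHalf
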