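import Mathlib

/-! Generator of the matching process on sets of free vertices, backward functions and forward
laws (MP_73ccd0_lc, exact 1/2). -/

namespace Pool.Agent.RX.RCRSHalf

open Set Finset

set_option linter.unusedSectionVars false

variable {V : Type*} [Fintype V] [DecidableEq V]

/-- the generator of the matching process -/
noncomputable def gen (h : V → V → ℝ) (φ : Finset V → ℝ) (F : Finset V) : ℝ :=
  (1 / 2) * ∑ a ∈ F, ∑ b ∈ F, h a b * (φ ((F.erase a).erase b) - φ F)

/-- point mass -/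
def pt (F0 : Finset V) : Finset V → ℝ := fun F => if F = F0 then 1 else 0

/-- the forward field -/
noncomputable def fwd (h : V → V → ℝ) (y : Finset V → ℝ) (F0 : Finset V) : ℝ :=
  ∑ F : Finset V, y F * gen h (pt F0) F

/-- the generator as a linear map -/
noncomputable def genL (h : V → V → ℝ) (F : Finset V) : (Finset V → ℝ) →ₗ[ℝ] ℝ where
  toFun φ := gen h φ F
  map_add' φ ψ := by
    unfold gen
    rw [← mul_add, ← Finset.sum_add_distrib]
    congr 1
    refine Finset.sum_congr rfl fun a _ => ?_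
    rw [← Finset.sum_add_distrib]
    refine Finset.sum_congr rfl fun b _ => ?_
    simp only [Pi.add_apply]; ring
  map_smul' c φ := by
    unfold gen
    simp only [Pi.smul_apply, smul_eq_mul, RingHom.id_apply, Finset.mul_sum]
    refine Finset.sum_congr rfl fun a _ => ?_
    refine Finset.sum_congr rfl fun b _ => ?_
    ring

theorem gen_lin (h : V → V → ℝ) (φ : Finset V → ℝ) (F : Finset V) :
    gen h φ F = ∑ F0 : Finset V, φ F0 * gen h (pt F0) F := by
  have e : φ = ∑ F0 : Finset V, φ F0 • pt F0 := by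
    funext G; simp [pt]
  have : genL h F φ = ∑ F0 : Finset V, φ F0 * genL h F (pt F0) := by
    conv_lhs => rw [e]
    rw [map_sum]
    simp only [map_smul, smul_eq_mul]
  exact this

theorem gen_const (h : V → V → ℝ) (c : ℝ) (F : Finset V) : gen h (fun _ => c) F = 0 := by
  simp [gen]

theorem gen_congr {h : V → V → ℝ} {φ ψ : Finset V → ℝ} {F : Finset V}
    (e : ∀ G, G ⊆ F → φ G = ψ G) : gen h φ F = gen h ψ F := by
  unfold gen
  congr 1
  refine Finset.sum_congr rfl fun a _ => Finset.sum_congr rfl fun b _ => ?_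
  rw [e _ ((Finset.erase_subset _ _).trans (Finset.erase_subset _ _)), e F Finset.Subset.rfl]

/-- duality of the forward field and the generator -/
theorem sum_fwd (h : V → V → ℝ) (y : Finset V → ℝ) (φ : Finset V → ℝ) :
    ∑ F0 : Finset V, fwd h y F0 * φ F0 = ∑ F : Finset V, y F * gen h φ F := by
  unfold fwd
  simp_rw [Finset.sum_mul]
  rw [Finset.sum_comm]
  refine Finset.sum_congr rfl fun F _ => ?_
  rw [gen_lin h φ F, Finset.mul_sum]
  refine Finset.sum_congr rfl fun F0 _ => ?_
  ring

section back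

variable {h : ℝ → V → V → ℝ} {k : ℝ → V → ℝ}

end back

section law

/-- `μ` is a forward law started at `U` with hazards `h` on the time interval `[0, T]`. -/
structure IsLaw (h : ℝ → V → V → ℝ) (U : Finset V) (T : ℝ) (μ : ℝ → Finset V → ℝ) : Prop where
  start : μ 0 = pt U
  deriv : ∀ F, ∀ t ∈ Icc 0 T, HasDerivAt (fun t => μ t F) (fwd (h t) (μ t) F) t
  nonneg : ∀ F, ∀ t ∈ Icc 0 T, 0 ≤ μ t F
  total : ∀ t ∈ Icc 0 T, ∑ F : Finset V, μ t F = 1

/-- weak form of the forward equation -/
theorem IsLaw.deriv_sum {h : ℝ → V → V → ℝ} {U : Finset V} {T : ℝ} {μ : ℝ → Finset V → ℝ}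
    (hμ : IsLaw h U T μ) {φ φ' : ℝ → Finset V → ℝ} {t : ℝ} (ht : t ∈ Icc 0 T)
    (hφ : ∀ F, HasDerivAt (fun t => φ t F) (φ' t F) t) :
    HasDerivAt (fun t => ∑ F : Finset V, μ t F * φ t F)
      (∑ F : Finset V, μ t F * (gen (h t) (φ t) F + φ' t F)) t := by
  have h1 : HasDerivAt (fun t => ∑ F : Finset V, μ t F * φ t F)
      (∑ F : Finset V, (fwd (h t) (μ t) F * φ t F + μ t F * φ' t F)) t :=
    HasDerivAt.fun_sum fun F _ => (hμ.deriv F t ht).mul (hφ F)
  refine h1.congr_deriv ?_
  rw [Finset.sum_add_distrib, sum_fwd, ← Finset.sum_add_distrib]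
  exact Finset.sum_congr rfl fun F _ => by ring

end law

end Pool.Agent.RX.RCRSHalf
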