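import Mathlib

/-! Walk functionals of a symmetric substochastic triangle-free weight matrix
(MP_73ccd0_lc, exact 1/2). -/

namespace Pool.Agent.RX.RCRSHalf

open Finset Matrix

set_option linter.unusedSectionVars false

variable {V : Type*} [Fintype V] [DecidableEq V]

/-- `S_n = ∑_{j ≤ n} θ^j A^{2j}` -/
noncomputable def Sn (θ : ℝ) (A : Matrix V V ℝ) : ℕ → Matrix V V ℝ
  | 0 => 1
  | n + 1 => 1 + θ • (A * A * Sn θ A n)

section basic

variable {θ t t1 t2 : ℝ} {A B : Matrix V V ℝ}

end basic

end Pool.Agent.RX.RCRSHalf
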